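import Pool.Agent.H699.T.Forest

/-!
# Clusters and exit pairs (S_CLUS)
-/

set_option autoImplicit false

namespace Pool.Agent.H177.T.CLUS

open Finset Classical Pool.Agent.H699.T

variable {N : ℕ}

theorem conn_symm {κ : Fin N → Fin N → ℕ} (hκ : ∀ x y, κ x y = κ y x) {t : ℕ} {x y : Fin N}
    (h : Conn κ t x y) : Conn κ t y x := by
  unfold Conn at h ⊢
  induction h with
  | refl => exact Relation.ReflTransGen.refl
  | tail _ hbc ih => exact Relation.ReflTransGen.head (by rw [hκ]; exact hbc) ih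

theorem conn_mono {κ : Fin N → Fin N → ℕ} {s t : ℕ} (hst : s ≤ t) {x y : Fin N}
    (h : Conn κ s x y) : Conn κ t x y := by
  unfold Conn at h ⊢
  induction h with
  | refl => exact Relation.ReflTransGen.refl
  | tail _ hbc ih => exact Relation.ReflTransGen.tail ih (lt_of_lt_of_le hbc hst)

theorem conn_zero {κ : Fin N → Fin N → ℕ} {x y : Fin N} (h : Conn κ 0 x y) : x = y := by
  unfold Conn at h
  induction h with
  | refl => rfl
  | tail _ hbc _ => exact absurd hbc (Nat.not_lt_zero _)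

theorem exists_leave {α : Type} {r : α → α → Prop} {P : α → Prop} {a b : α}
    (h : Relation.ReflTransGen r a b) (ha : P a) (hb : ¬ P b) : ∃ x y, P x ∧ ¬ P y ∧ r x y := by
  induction h with
  | refl => exact absurd ha hb
  | @tail b c _ hbc ih =>
    by_cases hP : P b
    · exact ⟨b, c, hP, hb, hbc⟩
    · exact ih hP

theorem mem_Qs {κ : Fin N → Fin N → ℕ} {R : Finset (Fin N)} {v x : Fin N} :
    x ∈ Qs κ R v ↔ Conn κ (th κ R v) v x := by
  unfold Qs
  rw [Finset.mem_filter]
  exact ⟨fun h => h.2, fun h => ⟨Finset.mem_univ _, h⟩⟩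

theorem th_spec {κ : Fin N → Fin N → ℕ} {R : Finset (Fin N)} (hR : R.Nonempty) (v : Fin N) :
    ∃ r ∈ R, Conn κ (th κ R v + 1) v r := by
  have hne : {t | ∃ r ∈ R, Conn κ (t + 1) v r}.Nonempty := by
    obtain ⟨r, hr⟩ := hR
    exact ⟨κ v r, r, hr, Relation.ReflTransGen.single (Nat.lt_succ_self _)⟩
  exact Nat.sInf_mem hne

theorem th_le {κ : Fin N → Fin N → ℕ} {R : Finset (Fin N)} {v r : Fin N} {t : ℕ} (hr : r ∈ R)
    (h : Conn κ (t + 1) v r) : th κ R v ≤ t :=
  Nat.sInf_le ⟨r, hr, h⟩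

theorem t_CLUS : S_CLUS := by
  intro N κ hκ R hR v hv
  obtain ⟨r0, hr0, hpath⟩ := th_spec (κ := κ) hR v
  have hvQ : v ∈ Qs κ R v := mem_Qs.mpr Relation.ReflTransGen.refl
  have hA : ∀ x ∈ Qs κ R v, x ∉ R := by
    intro x hx hxR
    have hc := mem_Qs.mp hx
    rcases Nat.eq_zero_or_pos (th κ R v) with h0 | hpos
    · rw [h0] at hc
      have := conn_zero hc
      exact hv (this ▸ hxR)
    · obtain ⟨s, hs⟩ : ∃ s, th κ R v = s + 1 := ⟨th κ R v - 1, by omega⟩
      have hc' : Conn κ (s + 1) v x := hs ▸ hc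
      have := th_le hxR hc'
      omega
  have hB : ∀ x ∈ Qs κ R v, ∀ y, y ∉ Qs κ R v → th κ R v ≤ κ x y := by
    intro x hx y hy
    by_contra hlt
    exact hy (mem_Qs.mpr (Relation.ReflTransGen.tail (mem_Qs.mp hx) (not_le.mp hlt)))
  have hth : ∀ x ∈ Qs κ R v, th κ R x = th κ R v := by
    intro x hx
    have hc := mem_Qs.mp hx
    have hc' := conn_symm hκ.symm hc
    apply le_antisymm
    · exact th_le hr0 (Relation.ReflTransGen.trans (conn_mono (Nat.le_succ _) hc') hpath)
    · obtain ⟨r, hr, hrp⟩ := th_spec (κ := κ) hR x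
      by_contra hlt
      have hlt' : th κ R x + 1 ≤ th κ R v := not_le.mp hlt
      have : r ∈ Qs κ R v := mem_Qs.mpr (Relation.ReflTransGen.trans hc (conn_mono hlt' hrp))
      exact hA r this hr
  have hQs : ∀ x ∈ Qs κ R v, Qs κ R x = Qs κ R v := by
    intro x hx
    have hc := mem_Qs.mp hx
    have hc' := conn_symm hκ.symm hc
    ext y
    rw [mem_Qs, mem_Qs, hth x hx]
    exact ⟨fun h => Relation.ReflTransGen.trans hc h, fun h => Relation.ReflTransGen.trans hc' h⟩
  have hr0Q : r0 ∉ Qs κ R v := fun h => hA r0 h hr0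
  obtain ⟨x0, y0, hx0, hy0, hlt0⟩ := exists_leave (P := fun z => z ∈ Qs κ R v) hpath hvQ hr0Q
  have hk0 : κ x0 y0 = th κ R v := le_antisymm (Nat.lt_succ_iff.mp hlt0) (hB x0 hx0 y0 hy0)
  have hex : ∃ e, IsExit κ R v e := ⟨(x0, y0), hx0, hy0, hk0⟩
  have hExt : IsExit κ R v (ext κ R v) := by
    unfold Pool.Agent.H699.T.ext
    rw [dif_pos hex]
    exact Classical.choose_spec hex
  have huniq : ∀ e e', IsExit κ R v e → IsExit κ R v e' → e = e' := by
    intro e e' he he'
    have hne : e.1 ≠ e.2 := fun h => he.2.1 (h ▸ he.1)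
    have hne' : e'.1 ≠ e'.2 := fun h => he'.2.1 (h ▸ he'.1)
    rcases hκ.inj e.1 e.2 e'.1 e'.2 hne hne' (he.2.2.trans he'.2.2.symm) with h | h
    · exact Prod.ext h.1 h.2
    · exact absurd (h.1 ▸ he.1) he'.2.1
  have hext : ∀ x ∈ Qs κ R v, ext κ R x = ext κ R v := by
    intro x hx
    have hE : IsExit κ R x = IsExit κ R v := by
      funext e
      unfold IsExit
      rw [hQs x hx, hth x hx]
    have hex' : ∃ e, IsExit κ R x e := by
      rw [hE]
      exact hex
    have h1 : IsExit κ R x (ext κ R x) := by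
      unfold Pool.Agent.H699.T.ext
      rw [dif_pos hex']
      exact Classical.choose_spec hex'
    rw [hE] at h1
    exact huniq _ _ h1 hExt
  have hin : ∀ x ∈ Qs κ R v, ConnIn κ (Qs κ R v) (th κ R v) v x := by
    intro x hx
    have hc := mem_Qs.mp hx
    unfold Conn at hc
    unfold ConnIn
    clear hx
    induction hc with
    | refl => exact Relation.ReflTransGen.refl
    | @tail b c hab hbc ih =>
      exact Relation.ReflTransGen.tail ih
        ⟨mem_Qs.mpr hab, mem_Qs.mpr (Relation.ReflTransGen.tail hab hbc), hbc⟩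
  refine ⟨hA, hvQ, fun x hx => ⟨hth x hx, hQs x hx, hext x hx⟩, hB, hin, hExt,
    fun e he => huniq _ _ he hExt, ?_⟩
  have hP : (∃ e, IsExit κ R v e ∧ Conn κ (th κ R v) e.2 r0) ∨
      (v ∉ Qs κ R v ∧ Conn κ (th κ R v) v r0) := by
    unfold Conn at hpath
    refine Relation.ReflTransGen.head_induction_on (motive := fun z _ =>
      (∃ e, IsExit κ R v e ∧ Conn κ (th κ R v) e.2 r0) ∨
      (z ∉ Qs κ R v ∧ Conn κ (th κ R v) z r0)) hpath ?_ ?_
    · exact Or.inr ⟨hr0Q, Relation.ReflTransGen.refl⟩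
    · intro z z' hzz' _ ih
      rcases ih with h | ⟨hz', hc⟩
      · exact Or.inl h
      · by_cases hz : z ∈ Qs κ R v
        · left
          exact ⟨(z, z'), ⟨hz, hz', le_antisymm (Nat.lt_succ_iff.mp hzz') (hB z hz z' hz')⟩, hc⟩
        · right
          refine ⟨hz, ?_⟩
          by_cases hlt : κ z z' < th κ R v
          · exact Relation.ReflTransGen.head hlt hc
          · have hk : κ z z' = th κ R v := le_antisymm (Nat.lt_succ_iff.mp hzz') (not_lt.mp hlt)
            by_cases hzz : z = z'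
            · rw [hzz]
              exact hc
            · exfalso
              have hxy : x0 ≠ y0 := fun h => hy0 (h ▸ hx0)
              rcases hκ.inj z z' x0 y0 hzz hxy (hk.trans hk0.symm) with h | h
              · exact hz (h.1 ▸ hx0)
              · exact hz' (h.2 ▸ hx0)
  rcases hP with ⟨e, he, hc⟩ | ⟨h, _⟩
  · have hee : e = ext κ R v := huniq _ _ he hExt
    rw [hee] at hc
    rcases Nat.eq_zero_or_pos (th κ R v) with h0 | hpos
    · left
      rw [h0] at hc
      rw [conn_zero hc]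
      exact hr0
    · right
      obtain ⟨s, hs⟩ : ∃ s, th κ R v = s + 1 := ⟨th κ R v - 1, by omega⟩
      have hc' : Conn κ (s + 1) (ext κ R v).2 r0 := hs ▸ hc
      have := th_le hr0 hc'
      omega
  · exact absurd hvQ h

end Pool.Agent.H177.T.CLUS
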