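import Pool.Agent.H699.T.Dec

/-!
# The collapsing map (S_D2)
-/

set_option autoImplicit false

namespace Pool.Agent.H177.T.D2

open Finset Classical Pool.Agent.H699.T

variable {n : ℕ} {d : Fin n → Fin n → ℝ} {C : Finset (Fin n)} {r : ℝ}

theorem mem_ball {y : Fin n} : y ∈ ball d C r ↔ ∃ c ∈ C, d c y ≤ r := by
  unfold ball
  rw [Finset.mem_filter]
  exact ⟨fun h => h.2, fun h => ⟨Finset.mem_univ _, h⟩⟩

theorem mem_cls {y c' : Fin n} :
    c' ∈ cls d C r y ↔ c' ∈ C ∧ ∃ c ∈ C, d c y ≤ r ∧ Lnk d C r c c' := by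
  unfold cls
  rw [Finset.mem_filter]

theorem lnk_symm (hd : IsMet d) {a b : Fin n} (h : Lnk d C r a b) : Lnk d C r b a := by
  unfold Lnk at h ⊢
  induction h with
  | refl => exact Relation.ReflTransGen.refl
  | tail _ hbc ih =>
    exact Relation.ReflTransGen.head ⟨hbc.2.1, hbc.1, by rw [hd.symm]; exact hbc.2.2⟩ ih

theorem mem_cls_iff (hd : IsMet d) {c y : Fin n} (hc : c ∈ C) (hcy : d c y ≤ r) (c' : Fin n) :
    c' ∈ cls d C r y ↔ c' ∈ C ∧ Lnk d C r c c' := by
  rw [mem_cls]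
  constructor
  · rintro ⟨h1, c₁, hc₁, h2, h3⟩
    refine ⟨h1, Relation.ReflTransGen.head ⟨hc, hc₁, ?_⟩ h3⟩
    have := hd.tri c y c₁
    rw [hd.symm y c₁] at this
    linarith
  · rintro ⟨h1, h2⟩
    exact ⟨h1, c, hc, hcy, h2⟩

theorem cls_nonempty {y : Fin n} (hy : y ∈ ball d C r) : (cls d C r y).Nonempty := by
  obtain ⟨c, hc, hcy⟩ := mem_ball.mp hy
  exact ⟨c, mem_cls.mpr ⟨hc, c, hc, hcy, Relation.ReflTransGen.refl⟩⟩

theorem cls_eq_empty {y : Fin n} (hy : y ∉ ball d C r) : ¬ (cls d C r y).Nonempty := by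
  rintro ⟨c', hc'⟩
  obtain ⟨_, c, hc, hcy, _⟩ := mem_cls.mp hc'
  exact hy (mem_ball.mpr ⟨c, hc, hcy⟩)

theorem fr_of_not {y : Fin n} (hy : y ∉ ball d C r) : fr d C r y = y := by
  unfold fr
  rw [dif_neg (cls_eq_empty hy)]

theorem fr_mem {y : Fin n} (hy : y ∈ ball d C r) : fr d C r y ∈ cls d C r y := by
  unfold fr
  rw [dif_pos (cls_nonempty hy)]
  exact Finset.min'_mem _ _

theorem fr_congr {x y : Fin n} (hx : x ∈ ball d C r) (hy : y ∈ ball d C r)
    (h : cls d C r x = cls d C r y) : fr d C r x = fr d C r y := by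
  unfold fr
  rw [dif_pos (cls_nonempty hx), dif_pos (cls_nonempty hy)]
  simp only [h]

theorem self_ball (hd : IsMet d) (hr : 0 ≤ r) {c : Fin n} (hc : c ∈ C) : c ∈ ball d C r :=
  mem_ball.mpr ⟨c, hc, by rw [hd.self]; exact hr⟩

theorem leave {c c' : Fin n} (h : Lnk d C r c c') :
    c = c' ∨ ∃ c₁ ∈ C.erase c, c ∈ C ∧ d c c₁ ≤ 2 * r ∧ Lnk d (C.erase c) r c₁ c' := by
  unfold Lnk at h
  induction h with
  | refl => exact Or.inl rfl
  | @tail b e hab hbe ih =>
    by_cases he : c = e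
    · exact Or.inl he
    · right
      by_cases hb : c = b
      · subst hb
        exact ⟨e, Finset.mem_erase.mpr ⟨fun h => he h.symm, hbe.2.1⟩, hbe.1, hbe.2.2,
          Relation.ReflTransGen.refl⟩
      · rcases ih with h | ⟨c₁, h1, h2, h3, h4⟩
        · exact absurd h hb
        · exact ⟨c₁, h1, h2, h3, Relation.ReflTransGen.tail h4
            ⟨Finset.mem_erase.mpr ⟨fun h => hb h.symm, hbe.1⟩,
              Finset.mem_erase.mpr ⟨fun h => he h.symm, hbe.2.1⟩, hbe.2.2⟩⟩

theorem dist_le (hd : IsMet d) (hr : 0 ≤ r) : ∀ (k : ℕ) (C : Finset (Fin n)), C.card = k →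
    ∀ c ∈ C, ∀ c', Lnk d C r c c' → d c c' ≤ 2 * r * ((C.card : ℝ) - 1) := by
  intro k
  induction k with
  | zero =>
    intro C hC c hc
    rw [Finset.card_eq_zero] at hC
    subst hC
    exact absurd hc (Finset.notMem_empty _)
  | succ k ih =>
    intro C hC c hc c' h
    have h1 : (1 : ℝ) ≤ C.card := by
      have : 1 ≤ C.card := by omega
      exact_mod_cast this
    rcases leave h with he | ⟨c₁, hc₁, _, h2, h3⟩
    · rw [← he, hd.self]
      exact mul_nonneg (by linarith) (by linarith)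
    · have hcard : (C.erase c).card = k := by
        rw [Finset.card_erase_of_mem hc, hC]
        rfl
      have := ih (C.erase c) hcard c₁ hc₁ c' h3
      have ht := hd.tri c c₁ c'
      rw [hcard] at this
      rw [hC]
      push_cast
      nlinarith

theorem t_D2 : S_D2 := by
  intro n d hR C r hr
  have hd := hR.met
  have hA : ∀ y, y ∈ ball d C r → fr d C r y ∈ C := fun y hy => (mem_cls.mp (fr_mem hy)).1
  have hB : ∀ y, y ∉ ball d C r → fr d C r y = y := fun y hy => fr_of_not hy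
  have hboth : ∀ x y, fr d C r x = fr d C r y → x ≠ y → x ∈ ball d C r := by
    intro x y hxy hne
    by_contra hx
    rw [hB x hx] at hxy
    by_cases hy : y ∈ ball d C r
    · have := hA y hy
      rw [← hxy] at this
      exact hx (self_ball hd hr this)
    · rw [hB y hy] at hxy
      exact hne hxy
  refine ⟨?_, hA, hB, ?_, ?_, ?_⟩
  · intro y
    by_cases hy : y ∈ ball d C r
    · obtain ⟨c, hc, hcy⟩ := mem_ball.mp hy
      have hf := hA y hy
      have hL := ((mem_cls_iff hd hc hcy _).mp (fr_mem hy)).2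
      refine fr_congr (self_ball hd hr hf) hy ?_
      ext z
      rw [mem_cls_iff hd hf (by rw [hd.self]; exact hr) z, mem_cls_iff hd hc hcy z]
      exact ⟨fun h => ⟨h.1, Relation.ReflTransGen.trans hL h.2⟩,
        fun h => ⟨h.1, Relation.ReflTransGen.trans (lnk_symm hd hL) h.2⟩⟩
    · rw [hB y hy, hB y hy]
  · intro x y hxy hne
    have hx := hboth x y hxy hne
    have hy := hboth y x hxy.symm (Ne.symm hne)
    refine ⟨hx, hy, ?_⟩
    obtain ⟨c, hc, hcx⟩ := mem_ball.mp hx
    obtain ⟨c', hc', hcy⟩ := mem_ball.mp hy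
    have h1 := ((mem_cls_iff hd hc hcx _).mp (fr_mem hx)).2
    have h2 := ((mem_cls_iff hd hc' hcy _).mp (fr_mem hy)).2
    rw [← hxy] at h2
    have h3 : Lnk d C r c c' := Relation.ReflTransGen.trans h1 (lnk_symm hd h2)
    have h4 := dist_le hd hr C.card C rfl c hc c' h3
    have t1 := hd.tri x c y
    have t2 := hd.tri c c' y
    rw [hd.symm x c] at t1
    nlinarith
  · intro x y hne hx
    obtain ⟨c, hc, hcx⟩ := mem_ball.mp hx
    refine ⟨c, hc, hcx, ?_⟩
    by_contra hle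
    have hcy : d c y ≤ r := not_lt.mp hle
    apply hne
    refine fr_congr hx (mem_ball.mpr ⟨c, hc, hcy⟩) ?_
    ext z
    rw [mem_cls_iff hd hc hcx z, mem_cls_iff hd hc hcy z]
  · intro d' hd'
    have hL : ∀ a b, Lnk d' C r a b ↔ Lnk d C r a b := by
      have : (fun a b => a ∈ C ∧ b ∈ C ∧ d' a b ≤ 2 * r) =
          (fun a b => a ∈ C ∧ b ∈ C ∧ d a b ≤ 2 * r) := by
        funext a b
        apply propext
        constructor
        · rintro ⟨h1, h2, h3⟩
          exact ⟨h1, h2, by rw [← hd' a h1 b]; exact h3⟩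
        · rintro ⟨h1, h2, h3⟩
          exact ⟨h1, h2, by rw [hd' a h1 b]; exact h3⟩
      intro a b
      unfold Lnk
      rw [this]
    have hc : ∀ y, cls d' C r y = cls d C r y := by
      intro y
      ext z
      rw [mem_cls, mem_cls]
      constructor
      · rintro ⟨h1, c, h2, h3, h4⟩
        exact ⟨h1, c, h2, by rw [← hd' c h2 y]; exact h3, (hL _ _).mp h4⟩
      · rintro ⟨h1, c, h2, h3, h4⟩
        exact ⟨h1, c, h2, by rw [hd' c h2 y]; exact h3, (hL _ _).mpr h4⟩
    constructor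
    · funext y
      unfold fr
      simp only [hc]
    · ext y
      rw [mem_ball, mem_ball]
      constructor
      · rintro ⟨c, h2, h3⟩
        exact ⟨c, h2, by rw [← hd' c h2 y]; exact h3⟩
      · rintro ⟨c, h2, h3⟩
        exact ⟨c, h2, by rw [hd' c h2 y]; exact h3⟩

end Pool.Agent.H177.T.D2
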